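import Pool.Agent.H71.CW.Top

/-!
# Module TP2: a rank function computes the iterated sets of accumulation points
-/

set_option autoImplicit false

open Set

namespace Pool.Agent.CW

theorem pf_TP2 : TP2 := by
  intro Y _ ρ hR m
  induction m with
  | zero =>
    ext p
    simp [Dv]
  | succ m ih =>
    ext p
    constructor
    · rintro ⟨h1, h2⟩
      rw [ih] at h1
      have h1' : (m : ℕ∞) ≤ ρ p := h1
      have hlt : (m : ℕ∞) < ρ p := by
        refine lt_of_le_of_ne h1' ?_
        intro h
        obtain ⟨U, hU, hpU, hq⟩ := hR.up p m h.symm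
        obtain ⟨q, hqU, hqp, hqD⟩ := h2 U hU hpU
        rw [ih] at hqD
        exact absurd (hq q hqU hqp) (not_lt.mpr hqD)
      have h3 := Order.add_one_le_of_lt hlt
      change ((m + 1 : ℕ) : ℕ∞) ≤ ρ p
      rw [Nat.cast_add, Nat.cast_one]
      exact h3
    · intro h
      have h' : ((m + 1 : ℕ) : ℕ∞) ≤ ρ p := h
      have hlt : (m : ℕ∞) < ρ p :=
        lt_of_lt_of_le (by exact_mod_cast Nat.lt_succ_self m) h'
      refine ⟨?_, ?_⟩
      · rw [ih]; exact hlt.le
      · intro U hU hpU
        obtain ⟨q, hqU, hqp, hq⟩ := hR.lim p m hlt U hU hpU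
        refine ⟨q, hqU, hqp, ?_⟩
        rw [ih]; exact hq

end Pool.Agent.CW
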