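import Pool.Agent.H71.CW.Top

/-!
# Module TP3: the branches of the tree
-/

set_option autoImplicit false

open Set

namespace Pool.Agent.CW

private theorem pre_len52 (p : ℕ → Bool) (m : ℕ) : (pre p m).length = m := by
  induction m with
  | zero => rfl
  | succ m ih =>
    change (p m :: pre p m).length = m + 1
    rw [List.length_cons, ih]

private theorem pre_eq52 (p q : ℕ → Bool) (m : ℕ) (h : pre q m = pre p m) :
    ∀ j < m, q j = p j := by
  induction m with
  | zero => intro j hj; omega
  | succ m ih =>
    change q m :: pre q m = p m :: pre p m at h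
    obtain ⟨h1, h2⟩ := List.cons.inj h
    intro j hj
    rcases Nat.lt_succ_iff_lt_or_eq.mp hj with h3 | h3
    · exact ih h2 j h3
    · rw [h3]; exact h1

theorem pf_TP3 : TP3 := by
  intro x
  ext p
  constructor
  · intro h n i hM J hJ
    obtain ⟨q, hq, hpre⟩ := h (n + i + J.sup id + 1)
    rw [pre_len52] at hpre
    have hag := pre_eq52 p q _ hpre
    obtain ⟨h1, h2, h3, h4, h5⟩ := hM
    have hM' : Mk q n i := by
      refine ⟨fun j hj => ?_, ?_, h3, h4, ?_⟩
      · rw [hag j (by omega)]; exact h1 j hj
      · rw [hag n (by omega)]; exact h2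
      · rw [hag i (by omega)]; exact h5
    refine hq n i hM' J ?_
    intro j hj
    refine ⟨(hJ j hj).1, ?_⟩
    have hle : j ≤ J.sup id := Finset.le_sup (f := id) hj
    rw [hag j (by omega)]
    exact (hJ j hj).2
  · intro hp m
    exact ⟨p, hp, by rw [pre_len52]⟩

end Pool.Agent.CW
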