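import Pool.Agent.H71.CW.Top

/-!
# Module TP4: the tree depends measurably on the parameter
-/

set_option autoImplicit false

open Set

namespace Pool.Agent.CW

private theorem pre_congr52 (p q : ℕ → Bool) (m : ℕ) (h : ∀ j < m, q j = p j) :
    pre q m = pre p m := by
  induction m with
  | zero => rfl
  | succ m ih =>
    change q m :: pre q m = p m :: pre p m
    rw [h m (Nat.lt_succ_self m), ih (fun j hj => h j (by omega))]

private theorem tf_congr52 (s : List Bool) (x x' : ℕ → Bool)
    (hx : ∀ n < s.length, x n = x' n) (h : s ∈ TF x) : s ∈ TF x' := by
  obtain ⟨p, hp, hs⟩ := h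
  refine ⟨fun j => if j < s.length then p j else false, ?_, ?_⟩
  · rintro n i ⟨h1, h2, h3, h4, h5⟩ J hJ
    have hn : n < s.length := by
      by_contra hc
      simp only [hc, if_false] at h2
      exact absurd h2 (by simp)
    have hi : i < s.length := by
      by_contra hc
      simp only [hc, if_false] at h5
      exact absurd h5 (by simp)
    simp only [hn, if_true] at h2
    simp only [hi, if_true] at h5
    have hM : Mk p n i := by
      refine ⟨fun j hj => ?_, h2, h3, h4, h5⟩
      have h6 := h1 j hj
      have hj' : j < s.length := by omega
      simp only [hj', if_true] at h6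
      exact h6
    have h7 := hp n i hM J (by
      intro j hj
      obtain ⟨h8, h9⟩ := hJ j hj
      refine ⟨h8, ?_⟩
      by_cases hj' : j < s.length
      · simp only [hj', if_true] at h9
        exact h9
      · simp only [hj', if_false] at h9
        exact absurd h9 (by simp))
    have h10 : kk x n = kk x' n := by
      unfold kk
      rw [hx n hn]
    rw [← h10]
    exact h7
  · rw [← hs, pre_congr52 p _ _ (fun j hj => ?_)]
    · rw [hs, hs]
    · have hj' : j < s.length := by rw [hs] at hj; exact hj
      simp only [hs]
      rw [if_pos hj']

theorem pf_TP4 : TP4 := by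
  intro s
  let r : (ℕ → Bool) → (Fin s.length → Bool) := fun x i => x i
  let ext : (Fin s.length → Bool) → (ℕ → Bool) :=
    fun y n => if h : n < s.length then y ⟨n, h⟩ else false
  have hr : Measurable r := measurable_pi_lambda _ (fun i => measurable_pi_apply _)
  have hS : {x | s ∈ TF x} = r ⁻¹' {y | s ∈ TF (ext y)} := by
    ext x
    have hag : ∀ n < s.length, x n = ext (r x) n := by
      intro n hn
      change x n = if h : n < s.length then r x ⟨n, h⟩ else false
      rw [dif_pos hn]
    constructor
    · intro h
      exact tf_congr52 s _ _ hag h
    · intro h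
      exact tf_congr52 s _ _ (fun n hn => (hag n hn).symm) h
  rw [hS]
  exact hr (Set.toFinite _).measurableSet

end Pool.Agent.CW
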