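import Pool.Agent.H71.CW.Top

/-!
# Module TP6: the depths of the closed sets
-/

set_option autoImplicit false

open Set

namespace Pool.Agent.CW

theorem pf_TP6 (h2 : TP2) (h5 : TP5) : TP6 := by
  classical
  intro x
  obtain ⟨ρ, hR, hfin, hzero, htop, hex⟩ := h5 x
  have hD : ∀ m : ℕ, Dv (FF x) m = {p | (m : ℕ∞) ≤ ρ p} := h2 _ ρ hR
  -- a point of rank exactly m near p excludes Smo m p
  have hno : ∀ (p : FF x) (m : ℕ), (∀ U : Set (FF x), IsOpen U → p ∈ U → ∃ q ∈ U, ρ q = m) →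
      ¬ Smo (FF x) m p := by
    rintro p m h ⟨U, hU, hpU, hq⟩
    obtain ⟨q, hqU, hqm⟩ := h U hU hpU
    have h1 : q ∈ Dv (FF x) m := by rw [hD]; exact hqm.symm.le
    have h3 := hq q hqU h1
    rw [hD] at h3
    have h4 : ((m + 1 : ℕ) : ℕ∞) ≤ ρ q := h3
    rw [hqm] at h4
    have h5' : m + 1 ≤ m := by exact_mod_cast h4
    omega
  have hyes : ∀ (p : FF x) (n : ℕ), ρ p = ⊤ → (∀ j < n, p.1 j = false) → p.1 n = true →
      Smo (FF x) (kk x n) p ∧ ∀ m < kk x n, ¬ Smo (FF x) m p := by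
    intro p n h1 h3 h4
    obtain ⟨⟨U, hU, hpU, hq⟩, h6⟩ := htop p n h1 h3 h4
    refine ⟨⟨U, hU, hpU, ?_⟩, fun m hm => hno p m (h6 m hm)⟩
    intro q hqU hqD
    rw [hD] at hqD ⊢
    have hqD' : ((kk x n : ℕ) : ℕ∞) ≤ ρ q := hqD
    rcases hq q hqU with h7 | h7
    · change ((kk x n + 1 : ℕ) : ℕ∞) ≤ ρ q
      rw [h7]
      exact le_top
    · exact absurd h7 (not_lt.mpr hqD')
  ext n'
  constructor
  · rintro ⟨p, hp, hS, hmin⟩
    rw [hD] at hp
    have hp' : (n' : ℕ∞) ≤ ρ p := hp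
    have htp : ρ p = ⊤ := by
      by_contra hne
      exact hno p n' (hfin p n' hp' hne) hS
    have hnz : ∃ i, p.1 i = true := by
      by_contra hc
      push Not at hc
      have hz : ∀ i, p.1 i = false := fun i => by
        cases h : p.1 i with
        | false => rfl
        | true => exact absurd h (hc i)
      exact hno p n' ((hzero p hz).2 n') hS
    have h3 : ∀ j < Nat.find hnz, p.1 j = false := by
      intro j hj
      have h4 := Nat.find_min hnz hj
      cases h : p.1 j with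
      | false => rfl
      | true => exact absurd h h4
    obtain ⟨h6, h7⟩ := hyes p _ htp h3 (Nat.find_spec hnz)
    refine ⟨Nat.find hnz, ?_⟩
    refine le_antisymm ?_ ?_
    · by_contra hc
      exact h7 n' (not_le.mp hc) hS
    · by_contra hc
      exact hmin _ (not_le.mp hc) h6
  · rintro ⟨n, rfl⟩
    obtain ⟨p, h1, h3, h4⟩ := hex n
    obtain ⟨h6, h7⟩ := hyes p n h1 h3 h4
    refine ⟨p, ?_, h6, h7⟩
    rw [hD]
    change ((kk x n : ℕ) : ℕ∞) ≤ ρ p
    rw [h1]
    exact le_top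

end Pool.Agent.CW
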